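import Pool.Agent.Helper49.SH.Tg

/-!
PROJECT ALLQ: typed targets of blocks E2, E3 (helper44 captain). DO NOT IMPORT IN FINAL FILES.
-/

set_option autoImplicit false

namespace Pool.Agent.Helper44.SH.Stub

open Finset Complex Pool.Agent.Helper34.LT LTG Pool.Agent.Helper34.LU Pool.Agent.Helper49.SH

variable {ι : Type} [Fintype ι]

/-- LEMMA A (helper73): coordinates. -/
theorem coords {E : ι → ι → ℚ} {N : Submodule ℂ (ι → ℂ)} (hP : Pol E N) {F : (ι → ℂ) → ℂ}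
    (hF : AT E N F) (h0 : F ≠ 0) :
    ∃ (a : ι → ℚ) (t : Fin (Module.finrank ℂ N) → ι → ℚ), F (rv a) ≠ 0 ∧ (∀ i, F (rv (t i)) ≠ 0) ∧
      ∀ e ∈ Nc N, (∀ i, F (rv a) * nab E e F (rv (t i)) = F (rv (t i)) * nab E e F (rv a)) →
        e = 0 := by
  sorry

/-- LEMMA B (helper44): S1, S2, S3 at the origin of `Nc`. -/
theorem key {E : ι → ι → ℚ} {N : Submodule ℂ (ι → ℂ)} (hP : Pol E N) {A0 G : (ι → ℂ) → ℂ}
    {A : Fin (Module.finrank ℂ N) → (ι → ℂ) → ℂ} (hA0 : AlgT E N A0) (hA : ∀ i, AlgT E N (A i))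
    (hG : AlgT E N G) (h0 : A0 0 ≠ 0) (h1 : ∀ i, A i 0 = 0)
    (hc : ∀ e ∈ Nc N, (∀ i, fderiv ℂ (A i) 0 e = 0) → e = 0) :
    ∃ c : Fin (Module.finrank ℂ N) → ℂ, (∀ i, IsAlgebraic ℚ (c i)) ∧ ∀ e ∈ Nc N,
      fderiv ℂ G 0 e * A0 0 - G 0 * fderiv ℂ A0 0 e = ∑ i, c i * fderiv ℂ (A i) 0 e := by
  sorry

end Pool.Agent.Helper44.SH.Stub
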