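import Pool.Agent.Helper13.LT.Psb
import Pool.Agent.Helper13.LT.Psd

/-!
PROJECT ALLQ (MP_274814_nt), block H, file 1: polynomial differential systems over a ring.
Sizes of polynomials, the derivation of the system, the bound for the Taylor coefficients.
-/

set_option autoImplicit false

namespace Pool.Agent.Helper44.SH

open Finset Filter Topology
open Pool.Agent.Helper13.LT (PS)

noncomputable section

/-- sum of the absolute values of the coefficients -/
def L1 {N : Type} (p : MvPolynomial N ℂ) : ℝ := ∑ s ∈ p.support, ‖p.coeff s‖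

theorem L1_nonneg {N : Type} (p : MvPolynomial N ℂ) : 0 ≤ L1 p :=
  sum_nonneg fun _ _ => norm_nonneg _

theorem L1_eq {N : Type} (p : MvPolynomial N ℂ) {S : Finset (N →₀ ℕ)} (h : p.support ⊆ S) :
    L1 p = ∑ s ∈ S, ‖p.coeff s‖ := by
  refine sum_subset h fun s _ hs => ?_
  rw [MvPolynomial.notMem_support_iff.1 hs, norm_zero]

theorem L1_add {N : Type} (p q : MvPolynomial N ℂ) : L1 (p + q) ≤ L1 p + L1 q := by
  classical
  rw [L1_eq (p + q) (MvPolynomial.support_add (p := p) (q := q)), L1_eq p subset_union_left,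
    L1_eq q subset_union_right, ← sum_add_distrib]
  refine sum_le_sum fun s _ => ?_
  rw [MvPolynomial.coeff_add]
  exact norm_add_le _ _

theorem L1_zero {N : Type} : L1 (0 : MvPolynomial N ℂ) = 0 := by
  simp [L1]

theorem L1_sum {N α : Type} (S : Finset α) (p : α → MvPolynomial N ℂ) :
    L1 (∑ a ∈ S, p a) ≤ ∑ a ∈ S, L1 (p a) := by
  classical
  induction S using Finset.induction_on with
  | empty => simp [L1_zero]
  | insert a S ha ih =>
    rw [sum_insert ha, sum_insert ha]
    exact (L1_add _ _).trans (by linarith)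

theorem L1_monomial {N : Type} (s : N →₀ ℕ) (a : ℂ) : L1 (MvPolynomial.monomial s a) ≤ ‖a‖ := by
  classical
  rw [L1_eq _ MvPolynomial.support_monomial_subset, sum_singleton, MvPolynomial.coeff_monomial,
    if_pos rfl]

theorem L1_mul {N : Type} (p q : MvPolynomial N ℂ) : L1 (p * q) ≤ L1 p * L1 q := by
  classical
  have h1 : p * q = ∑ s ∈ p.support, ∑ t ∈ q.support,
      MvPolynomial.monomial (s + t) (p.coeff s * q.coeff t) := by
    rw [MvPolynomial.mul_def]
    rfl
  rw [h1]
  refine (L1_sum _ _).trans ?_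
  unfold L1
  rw [sum_mul_sum]
  refine sum_le_sum fun s _ => (L1_sum _ _).trans (sum_le_sum fun t _ => ?_)
  exact (L1_monomial _ _).trans (norm_mul_le _ _)

theorem L1_eval {N : Type} (p : MvPolynomial N ℂ) {d : ℕ} (hd : p.totalDegree ≤ d)
    (y : N → ℂ) {Y : ℝ} (hY : 1 ≤ Y) (hy : ∀ j, ‖y j‖ ≤ Y) :
    ‖MvPolynomial.eval y p‖ ≤ L1 p * Y ^ d := by
  rw [MvPolynomial.eval_eq]
  unfold L1
  rw [sum_mul]
  refine (norm_sum_le _ _).trans (sum_le_sum fun s hs => ?_)
  rw [norm_mul]
  refine mul_le_mul_of_nonneg_left ?_ (norm_nonneg _)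
  rw [norm_prod]
  calc ∏ i ∈ s.support, ‖y i ^ s i‖ ≤ ∏ i ∈ s.support, Y ^ s i := by
        refine prod_le_prod (fun i _ => norm_nonneg _) fun i _ => ?_
        rw [norm_pow]
        exact pow_le_pow_left₀ (norm_nonneg _) (hy i) _
    _ = Y ^ (∑ i ∈ s.support, s i) := prod_pow_eq_pow_sum _ _ _
    _ ≤ Y ^ d := by
        refine pow_le_pow_right₀ hY ?_
        exact (MvPolynomial.le_totalDegree hs).trans hd

theorem pderiv_sum_form {N : Type} {R : Type} [CommRing R] (j : N) (p : MvPolynomial N R) :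
    MvPolynomial.pderiv j p = ∑ s ∈ p.support,
      MvPolynomial.monomial (s - Finsupp.single j 1) (p.coeff s * (s j : R)) := by
  conv_lhs => rw [p.as_sum]
  rw [map_sum]
  refine sum_congr rfl fun s _ => ?_
  rw [MvPolynomial.pderiv_monomial]

theorem totalDegree_pderiv {N : Type} {R : Type} [CommRing R] (j : N) (p : MvPolynomial N R)
    {d : ℕ} (hd : p.totalDegree ≤ d) : (MvPolynomial.pderiv j p).totalDegree ≤ d := by
  classical
  rw [pderiv_sum_form]
  refine MvPolynomial.totalDegree_finsetSum_le fun s hs => ?_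
  refine (MvPolynomial.totalDegree_monomial_le _ _).trans ?_
  refine le_trans ?_ ((MvPolynomial.le_totalDegree hs).trans hd)
  have : (s - Finsupp.single j 1 : N →₀ ℕ) ≤ s := tsub_le_self
  rw [Finsupp.sum_of_support_subset _ (Finsupp.support_mono this) _ (fun _ _ => rfl)]
  exact sum_le_sum fun i _ => this i

theorem L1_pderiv {N : Type} (j : N) (p : MvPolynomial N ℂ)
    {d : ℕ} (hd : p.totalDegree ≤ d) : L1 (MvPolynomial.pderiv j p) ≤ d * L1 p := by
  rw [pderiv_sum_form]
  refine (L1_sum _ _).trans ?_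
  unfold L1
  rw [mul_sum]
  refine sum_le_sum fun s hs => (L1_monomial _ _).trans ?_
  rw [norm_mul, mul_comm]
  refine mul_le_mul_of_nonneg_right ?_ (norm_nonneg _)
  rw [Complex.norm_natCast]
  have h1 : s j ≤ s.sum fun _ e => e := by
    by_cases hj : j ∈ s.support
    · exact single_le_sum (f := fun i => s i) (fun i _ => Nat.zero_le _) hj
    · rw [Finsupp.notMem_support_iff.1 hj]
      exact Nat.zero_le _
  exact_mod_cast h1.trans ((MvPolynomial.le_totalDegree hs).trans hd)

end

end Pool.Agent.Helper44.SH
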