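import Pool.Agent.Helper44.SH.Hc

/-!
PROJECT ALLQ (MP_274814_nt), block H, file 2: partial derivatives of everywhere convergent power
series.
-/

set_option autoImplicit false

namespace Pool.Agent.Helper44.SH

open Finset Filter Topology
open Pool.Agent.Helper13.LT (PS)

noncomputable section

variable {ι : Type} [Fintype ι] [DecidableEq ι]

private theorem Pd_prod (z : ι → ℂ) (i : ι) (t : ℂ) (m : ι → ℕ) :
    ∏ u, (z + t • (Pi.single i 1 : ι → ℂ)) u ^ m u =
      (∏ u ∈ univ.erase i, z u ^ m u) * (z i + t) ^ m i := by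
  rw [← prod_erase_mul _ _ (mem_univ i)]
  congr 1
  · refine prod_congr rfl fun u hu => ?_
    rw [Pi.add_apply, Pi.smul_apply, Pi.single_eq_of_ne (ne_of_mem_erase hu)]
    simp
  · simp

/-- the partial derivative of a power series -/
theorem PS_deriv {c : (ι → ℕ) → ℂ} {f : (ι → ℂ) → ℂ} (h : PS c f) (i : ι) :
    ∃ g : (ι → ℂ) → ℂ, PS (fun m => ((m i : ℂ) + 1) * c (m + Pi.single i 1)) g ∧
      ∀ z, HasDerivAt (fun t : ℂ => f (z + t • (Pi.single i 1 : ι → ℂ))) (g z) 0 := by
  -- summability of the differentiated series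
  have key : ∀ z : ι → ℂ, ∀ R : ℝ, 1 ≤ R → (∀ u, ‖z u‖ ≤ R) →
      Summable fun m : ι → ℕ => ‖c m‖ * (2 * (R + 1)) ^ (∑ u, m u) := by
    intro z R hR hz
    exact h.summable (by linarith)
  set G : (ι → ℂ) → (ι → ℕ) → ℂ := fun z m =>
    c m * ((∏ u ∈ univ.erase i, z u ^ m u) * ((m i : ℂ) * z i ^ (m i - 1))) with hG
  have hbd : ∀ (z : ι → ℂ) (R : ℝ), 1 ≤ R → (∀ u, ‖z u‖ ≤ R) → ∀ (t : ℂ), ‖t‖ < 1 →
      ∀ m : ι → ℕ, ‖c m * ((∏ u ∈ univ.erase i, z u ^ m u) * ((m i : ℂ) * (z i + t) ^ (m i - 1)))‖ ≤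
        ‖c m‖ * (2 * (R + 1)) ^ (∑ u, m u) := by
    intro z R hR hz t ht m
    rw [norm_mul]
    refine mul_le_mul_of_nonneg_left ?_ (norm_nonneg _)
    rw [norm_mul, norm_mul, norm_pow, norm_prod, Complex.norm_natCast]
    have h1 : ∏ u ∈ univ.erase i, ‖z u ^ m u‖ ≤ (R + 1) ^ (∑ u ∈ univ.erase i, m u) := by
      rw [← prod_pow_eq_pow_sum]
      refine prod_le_prod (fun u _ => norm_nonneg _) fun u _ => ?_
      rw [norm_pow]
      exact pow_le_pow_left₀ (norm_nonneg _) ((hz u).trans (by linarith)) _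
    have h2 : ‖z i + t‖ ^ (m i - 1) ≤ (R + 1) ^ (m i) := by
      calc ‖z i + t‖ ^ (m i - 1) ≤ (R + 1) ^ (m i - 1) :=
            pow_le_pow_left₀ (norm_nonneg _)
              ((norm_add_le _ _).trans (add_le_add (hz i) ht.le)) _
        _ ≤ (R + 1) ^ (m i) := pow_le_pow_right₀ (by linarith) (Nat.sub_le _ _)
    have h3 : (m i : ℝ) ≤ 2 ^ (∑ u, m u) := by
      have h4 : m i ≤ ∑ u, m u := single_le_sum (fun u _ => Nat.zero_le _) (mem_univ i)
      calc (m i : ℝ) ≤ 2 ^ (m i) := by exact_mod_cast (Nat.lt_two_pow_self (n := m i)).le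
        _ ≤ 2 ^ (∑ u, m u) := pow_le_pow_right₀ (by norm_num) h4
    have h5 : ∑ u, m u = ∑ u ∈ univ.erase i, m u + m i := (sum_erase_add _ _ (mem_univ i)).symm
    calc (∏ u ∈ univ.erase i, ‖z u ^ m u‖) * ((m i : ℝ) * ‖z i + t‖ ^ (m i - 1))
        ≤ (R + 1) ^ (∑ u ∈ univ.erase i, m u) * (2 ^ (∑ u, m u) * (R + 1) ^ (m i)) := by
          refine mul_le_mul h1 ?_ (by positivity) (by positivity)
          exact mul_le_mul h3 h2 (by positivity) (by positivity)
      _ = (2 * (R + 1)) ^ (∑ u, m u) := by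
          rw [mul_pow]
          conv_rhs => rw [h5, pow_add (R + 1), ← h5]
          ring
  have hR : ∀ z : ι → ℂ, ∃ R : ℝ, 1 ≤ R ∧ ∀ u, ‖z u‖ ≤ R := fun z =>
    ⟨‖z‖ + 1, by linarith [norm_nonneg z], fun u => (norm_le_pi_norm z u).trans (by linarith)⟩
  have hsum : ∀ z, Summable (G z) := by
    intro z
    obtain ⟨R, hR1, hz⟩ := hR z
    refine Summable.of_norm_bounded (key z R hR1 hz) fun m => ?_
    have := hbd z R hR1 hz 0 (by simp) m
    rw [add_zero] at this
    exact this
  refine ⟨fun z => ∑' m, G z m, ?_, ?_⟩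
  · intro z
    have hinj : Function.Injective (fun m : ι → ℕ => m + Pi.single i 1) := add_left_injective _
    have h1 : HasSum (G z) (∑' m, G z m) := (hsum z).hasSum
    have h2 := (hinj.hasSum_iff (f := G z) (a := ∑' m, G z m) (by
      intro m hm
      have h0 : m i = 0 := by
        by_contra h0
        apply hm
        refine ⟨m - Pi.single i 1, ?_⟩
        funext u
        by_cases hu : u = i
        · subst hu
          simp only [Pi.add_apply, Pi.sub_apply, Pi.single_eq_same]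
          omega
        · simp [hu]
      simp only [hG, h0]
      simp)).2 h1
    convert h2 using 1
    funext m
    simp only [hG, Function.comp, Pi.add_apply, Pi.single_eq_same, Nat.add_sub_cancel]
    rw [← prod_erase_mul _ _ (mem_univ i)]
    have h3 : ∏ u ∈ univ.erase i, z u ^ (m u + (Pi.single i 1 : ι → ℕ) u) =
        ∏ u ∈ univ.erase i, z u ^ m u := by
      refine prod_congr rfl fun u hu => ?_
      rw [Pi.single_eq_of_ne (ne_of_mem_erase hu), add_zero]
    rw [h3]
    push_cast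
    ring
  · intro z
    obtain ⟨R, hR1, hz⟩ := hR z
    have h1 := hasDerivAt_tsum_of_isPreconnected (𝕜 := ℂ) (key z R hR1 hz)
      (Metric.isOpen_ball (x := (0 : ℂ)) (ε := 1)) (convex_ball _ _).isPreconnected
      (g := fun m t => c m * ((∏ u ∈ univ.erase i, z u ^ m u) * (z i + t) ^ m i))
      (g' := fun m t => c m * ((∏ u ∈ univ.erase i, z u ^ m u) *
        ((m i : ℂ) * (z i + t) ^ (m i - 1))))
      (fun m t _ => ?_) (fun m t ht => hbd z R hR1 hz t (by simpa using ht) m)
      (y₀ := 0) (by simp) ?_ (y := 0) (by simp)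
    · have h2 : (fun t : ℂ => f (z + t • (Pi.single i 1 : ι → ℂ))) =
          fun t => ∑' m, c m * ((∏ u ∈ univ.erase i, z u ^ m u) * (z i + t) ^ m i) := by
        funext t
        rw [← (h _).tsum_eq]
        refine tsum_congr fun m => ?_
        rw [Pd_prod]
      rw [h2]
      show HasDerivAt _ (∑' m, G z m) 0
      have h5 : ∑' m, G z m = ∑' m, c m * ((∏ u ∈ univ.erase i, z u ^ m u) *
          ((m i : ℂ) * (z i + 0) ^ (m i - 1))) := by
        refine tsum_congr fun m => ?_
        rw [add_zero]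
      rw [h5]
      exact h1
    · have h3 : HasDerivAt (fun t : ℂ => (z i + t) ^ m i) ((m i : ℂ) * (z i + t) ^ (m i - 1) * 1)
          t := ((hasDerivAt_id t).const_add (z i)).pow (m i)
      rw [mul_one] at h3
      exact (h3.const_mul _).const_mul _
    · have h4 := (h z).summable
      refine h4.congr fun m => ?_
      have := Pd_prod z i 0 m
      rw [zero_smul, add_zero] at this
      rw [this]

end

end Pool.Agent.Helper44.SH
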